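import Pool.Agent.Results.MP_e2af18_al.PalLengthUndecidable
import Pool.Agent.Y669.TA.SysU

/-! Palindromic length in free nilpotent groups of class four: every recursively enumerable set
reduces; lower bounds. Stronger form of `PalLengthUndecidable`. -/

set_option autoImplicit false

namespace Pool.Agent.Results.MP_e2af18_al.LowerBounds

open Pool.Agent.Helper702.Pl
open Pool.Agent.Results.MP_e2af18_al.PalLengthUndecidable

theorem re_of_approx {α : Type} [Primcodable α] {g : α → ℕ → ℕ} (hg : Computable₂ g) (k : ℕ) :
    REPred fun a => ∃ s, k < g a s := by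
  have h1 : Computable₂ fun (a : α) (s : ℕ) => decide (k < g a s) := by
    have h2 : Primrec fun m : ℕ => decide (k < m) :=
      (Primrec.nat_lt.comp (Primrec.const k) Primrec.id).decide
    exact h2.to_comp.comp hg
  have h3 : Partrec fun a : α => Nat.rfind fun s => (Part.some (decide (k < g a s)) : Part Bool) :=
    Partrec.rfind h1.partrec₂
  refine h3.dom_re.of_eq fun a => ?_
  rw [Nat.rfind_dom]
  constructor
  · rintro ⟨s, hs, -⟩
    exact ⟨s, by simpa using hs⟩
  · rintro ⟨s, hs⟩
    exact ⟨s, by simpa using hs, fun _ => trivial⟩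

/-- There is `n₀` such that for every `n ≥ n₀` there is `k` such that, in the free nilpotent group of
rank `n` and class `4`,
(1) for every recursively enumerable set `W` there is a computable function `f` from numbers to
words such that `f a` represents an element of palindromic length at most `k` if and only if `a` is
in `W`;
(2) the set of the words which represent an element of palindromic length greater than `k` is not
recursively enumerable;
(3) the palindromic length is not the limit of computable lower bounds: there is no computable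
function `g` such that, for every word `w`, all the numbers `g w s` are lower bounds for the
palindromic length of the element represented by `w` and one of them is equal to it;
(4) in particular the palindromic length is not a computable function of the word. -/
theorem result : ∃ n₀ : ℕ, 2 ≤ n₀ ∧ ∀ n ≥ n₀,
    (∃ k : ℕ,
      (∀ W : ℕ → Prop, REPred W → ∃ f : ℕ → List (Fin n × Bool), Computable f ∧
        ∀ a, palLength (value n 4 (f a)) ≤ k ↔ W a) ∧
      ¬ REPred fun w : List (Fin n × Bool) => k < palLength (value n 4 w)) ∧
    (¬ ∃ g : List (Fin n × Bool) → ℕ → ℕ, Computable₂ g ∧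
      ∀ w, (∀ s, g w s ≤ palLength (value n 4 w)) ∧ ∃ s, g w s = palLength (value n 4 w)) ∧
    ¬ Computable fun w : List (Fin n × Bool) => palLength (value n 4 w) := by
  obtain ⟨n₀, h₀, h⟩ := reduction haltSet_re
  refine ⟨n₀, h₀, fun n hn => ?_⟩
  obtain ⟨k, f, hf, hfk⟩ := h n hn
  have h1 : ∀ W : ℕ → Prop, REPred W → ∃ f : ℕ → List (Fin n × Bool), Computable f ∧
        ∀ a, palLength (value n 4 (f a)) ≤ k ↔ W a := by
    intro W hW
    obtain ⟨g, hg, hgW⟩ := Pool.Agent.Y669.TA.SysU.universal hW
    refine ⟨fun a => f (g a), hf.to_comp.comp hg, fun a => ?_⟩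
    rw [palLength_le_iff, hfk, hgW a]
    rfl
  have h2 : ¬ REPred fun w : List (Fin n × Bool) => k < palLength (value n 4 w) := by
    intro hr
    obtain ⟨W, hre, hco⟩ := Pool.Agent.Y669.TA.SysU.exists_re_not_co
    obtain ⟨F, hF, hFW⟩ := h1 W hre
    apply hco
    have h3 : REPred fun a => k < palLength (value n 4 (F a)) := Partrec.comp hr hF
    exact h3.of_eq fun a => by rw [← hFW a, not_le]
  have h3 : ¬ ∃ g : List (Fin n × Bool) → ℕ → ℕ, Computable₂ g ∧
      ∀ w, (∀ s, g w s ≤ palLength (value n 4 w)) ∧ ∃ s, g w s = palLength (value n 4 w) := by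
    rintro ⟨g, hg, hgw⟩
    apply h2
    refine (re_of_approx hg k).of_eq fun w => ?_
    constructor
    · rintro ⟨s, hs⟩
      exact lt_of_lt_of_le hs ((hgw w).1 s)
    · intro hw
      obtain ⟨s, hs⟩ := (hgw w).2
      exact ⟨s, by rw [hs]; exact hw⟩
  refine ⟨⟨k, h1, h2⟩, h3, fun hc => h3 ⟨fun w _ => palLength (value n 4 w), ?_, ?_⟩⟩
  · exact hc.comp Computable.fst
  · exact fun w => ⟨fun _ => le_rfl, 0, rfl⟩

end Pool.Agent.Results.MP_e2af18_al.LowerBounds
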